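import Pool.Agent.Y602.CIS

/-!
# The graph of a formula is weakly chordal

The graph of the reduction `eqRed` (vertices: the pairs (variable `i` has value `a`) and the triples
(clause `k` is falsified and variable `i` has value `b`), adjacency is contradiction) has no induced
cycle of length at least five, and neither has its complement.
-/

set_option autoImplicit false

namespace Pool.Agent.Helper408_CIS

open Pool.Agent.H622R2 Pool.Agent.H609R2 Pool.Agent.NPC Pool.Agent.H495R3 Pool.Agent.Y602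

/-- A graph is weakly chordal when neither the graph nor its complement has an induced cycle with
five or more vertices. -/
def WeaklyChordal {V : Type} (G : SimpleGraph V) : Prop :=
  ∀ n : ℕ, 5 ≤ n → IsEmpty (SimpleGraph.cycleGraph n ↪g G) ∧
    IsEmpty (SimpleGraph.cycleGraph n ↪g Gᶜ)

/-- A bi-infinite periodic enumeration of an induced cycle. -/
theorem exists_enum {V : Type} {G : SimpleGraph V} {n : ℕ} (hn : 5 ≤ n)
    (f : SimpleGraph.cycleGraph n ↪g G) : ∃ v : ℤ → V,
      (∀ i, G.Adj (v i) (v (i + 1))) ∧ (∀ i, ¬ G.Adj (v i) (v (i + 2))) ∧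
      (∀ i, ¬ G.Adj (v i) (v (i + 3))) ∧ (∀ i, v i ≠ v (i + 2)) ∧ (∀ i, v i ≠ v (i + 3)) ∧
      (∀ i, v i ≠ v (i + 4)) := by
  obtain ⟨m, rfl⟩ : ∃ m, n = m + 5 := ⟨n - 5, by omega⟩
  let g : ℤ → Fin (m + 5) := fun i => (i : ZMod (m + 5))
  have hg : ∀ i j : ℤ, g i - g j = 1 ↔ ((m + 5 : ℕ) : ℤ) ∣ i - j - 1 := by
    intro i j
    rw [← ZMod.intCast_zmod_eq_zero_iff_dvd]
    change ((i : ZMod (m + 5)) - (j : ZMod (m + 5)) = 1) ↔ _
    push_cast
    rw [sub_eq_zero (b := (1 : ZMod (m + 5)))]
  have hge : ∀ i j : ℤ, g i = g j ↔ ((m + 5 : ℕ) : ℤ) ∣ i - j := by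
    intro i j
    rw [← ZMod.intCast_zmod_eq_zero_iff_dvd]
    change ((i : ZMod (m + 5)) = (j : ZMod (m + 5))) ↔ _
    push_cast
    rw [sub_eq_zero]
  have hadj : ∀ i j : ℤ, G.Adj (f (g i)) (f (g j)) ↔
      (((m + 5 : ℕ) : ℤ) ∣ i - j - 1 ∨ ((m + 5 : ℕ) : ℤ) ∣ j - i - 1) := by
    intro i j
    rw [f.map_adj_iff, SimpleGraph.cycleGraph_adj (n := m + 3), hg, hg]
  have hnd : ∀ d : ℤ, d ≠ 0 → -5 < d → d < 5 → ¬ ((m + 5 : ℕ) : ℤ) ∣ d := by
    intro d hd h1 h2 h
    rcases lt_or_gt_of_ne hd with h3 | h3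
    · have := Int.le_of_dvd (by omega) ((dvd_neg).2 h)
      push_cast at this
      omega
    · have := Int.le_of_dvd h3 h
      push_cast at this
      omega
  refine ⟨fun i => f (g i), fun i => ?_, fun i => ?_, fun i => ?_, fun i => ?_, fun i => ?_,
    fun i => ?_⟩
  · rw [hadj]
    right
    simp
  · rw [hadj]
    rintro (h | h)
    · exact hnd (i - (i + 2) - 1) (by omega) (by omega) (by omega) h
    · exact hnd (i + 2 - i - 1) (by omega) (by omega) (by omega) h
  · rw [hadj]
    rintro (h | h)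
    · exact hnd (i - (i + 3) - 1) (by omega) (by omega) (by omega) h
    · exact hnd (i + 3 - i - 1) (by omega) (by omega) (by omega) h
  · intro h
    exact hnd (i - (i + 2)) (by omega) (by omega) (by omega) ((hge _ _).1 (f.injective h))
  · intro h
    exact hnd (i - (i + 3)) (by omega) (by omega) (by omega) ((hge _ _).1 (f.injective h))
  · intro h
    exact hnd (i - (i + 4)) (by omega) (by omega) (by omega) ((hge _ _).1 (f.injective h))

section

variable {n m : ℕ} {L : ℕ → ℕ → Bool → Bool} {vs : List Lb}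

/-- Two nonadjacent triples with the same clause cannot be matched to opposite literals. -/
theorem lemL {k i j p : ℕ} {a b b' : Bool}
    (h1 : AdjP L (Sum.inl (p, a)) (Sum.inr (i, k, b)))
    (h2 : AdjP L (Sum.inl (p, !a)) (Sum.inr (j, k, b')))
    (h3 : ¬ AdjP L (Sum.inl (p, a)) (Sum.inr (j, k, b')))
    (h4 : ¬ AdjP L (Sum.inl (p, !a)) (Sum.inr (i, k, b)))
    (h5 : ¬ AdjP L (Sum.inr (i, k, b)) (Sum.inr (j, k, b'))) : False := by
  rw [adjP_lr] at h1 h2 h3 h4
  rw [adjP_rr] at h5
  push Not at h3 h4 h5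
  rcases h1 with ⟨rfl, h1⟩ | h1
  · rcases h2 with ⟨rfl, h2⟩ | h2
    · have := h5.2 rfl
      subst this
      revert h1 h2
      cases a <;> cases b <;> simp
    · exact h4.2 h2
  · exact h3.2 h1

/-- No induced cycle of length at least five. -/
theorem no_hole {v : ℤ → Lb} (hA : ∀ i, AdjP L (v i) (v (i + 1)))
    (h2 : ∀ i, ¬ AdjP L (v i) (v (i + 2))) (h3 : ∀ i, ¬ AdjP L (v i) (v (i + 3)))
    (d2 : ∀ i, v i ≠ v (i + 2)) : False := by
  -- no three consecutive literals
  have s1 : ∀ i x y z, v i = Sum.inl x → v (i + 1) = Sum.inl y → v (i + 2) = Sum.inl z → False := by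
    rintro i ⟨x1, x2⟩ ⟨y1, y2⟩ ⟨z1, z2⟩ hx hy hz
    have e1 := hA i
    have e2 := hA (i + 1)
    rw [show i + 1 + 1 = i + 2 by ring] at e2
    rw [hx, hy, adjP_ll] at e1
    rw [hy, hz, adjP_ll] at e2
    apply d2 i
    rw [hx, hz]
    obtain ⟨rfl, e1⟩ := e1
    obtain ⟨rfl, e2⟩ := e2
    congr 2
    revert e1 e2
    cases x2 <;> cases y2 <;> cases z2 <;> simp
  -- no two consecutive literals
  have s2 : ∀ i x y, v i = Sum.inl x → v (i + 1) = Sum.inl y → False := by
    rintro i ⟨x1, x2⟩ ⟨y1, y2⟩ hx hy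
    rcases hz : v (i + 2) with z | ⟨z1, z2, z3⟩
    · exact s1 i _ _ _ hx hy hz
    rcases hw : v (i - 1) with w | ⟨w1, w2, w3⟩
    · refine s1 (i - 1) w (x1, x2) (y1, y2) hw ?_ ?_
      · rw [show i - 1 + 1 = i by ring]; exact hx
      · rw [show i - 1 + 2 = i + 1 by ring]; exact hy
    have e0 := hA i
    rw [hx, hy, adjP_ll] at e0
    obtain ⟨rfl, e0⟩ := e0
    have hy2 : y2 = !x2 := by revert e0; cases x2 <;> cases y2 <;> simp
    subst hy2
    have e1 := hA (i - 1)
    rw [show i - 1 + 1 = i by ring, hx, hw] at e1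
    have e2 := hA (i + 1)
    rw [show i + 1 + 1 = i + 2 by ring, hy, hz] at e2
    have e3 := h2 i
    rw [hx, hz] at e3
    have e4 := h2 (i - 1)
    rw [show i - 1 + 2 = i + 1 by ring, hy, hw] at e4
    have e5 := h3 (i - 1)
    rw [show i - 1 + 3 = i + 2 by ring, hw, hz] at e5
    have e6 := e5
    rw [adjP_rr] at e6
    push Not at e6
    obtain ⟨rfl, _⟩ := e6
    exact lemL e1.symm e2 e3 (fun h => e4 h.symm) e5
  -- nonadjacent triples have the same clause
  have s0 : ∀ x y : ℕ × ℕ × Bool, ¬ AdjP L (Sum.inr x) (Sum.inr y) → x.2.1 = y.2.1 := by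
    rintro ⟨x1, x2, x3⟩ ⟨y1, y2, y3⟩ h
    rw [adjP_rr] at h
    push Not at h
    exact h.1
  -- consecutive triples have the same clause
  have s3 : ∀ i x y, v i = Sum.inr x → v (i + 1) = Sum.inr y → x.2.1 = y.2.1 := by
    intro i x y hx hy
    by_contra hne
    rcases hz : v (i + 3) with z | z
    · rcases hw : v (i - 2) with w | w
      · rcases hz' : v (i + 2) with z' | z'
        · exact s2 (i + 2) _ _ hz' (by rw [show i + 2 + 1 = i + 3 by ring]; exact hz)
        rcases hw' : v (i - 1) with w' | w'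
        · exact s2 (i - 2) _ _ hw (by rw [show i - 2 + 1 = i - 1 by ring]; exact hw')
        have e1 := h2 i
        rw [hx, hz'] at e1
        have e2 := h2 (i - 1)
        rw [show i - 1 + 2 = i + 1 by ring, hy, hw'] at e2
        have e3 := h3 (i - 1)
        rw [show i - 1 + 3 = i + 2 by ring, hw', hz'] at e3
        have f1 := s0 _ _ e1
        have f2 := s0 _ _ e2
        have f3 := s0 _ _ e3
        exact hne (by rw [f1, ← f2, f3])
      · have e1 := h2 (i - 2)
        rw [show i - 2 + 2 = i by ring, hx, hw] at e1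
        have e2 := h3 (i - 2)
        rw [show i - 2 + 3 = i + 1 by ring, hy, hw] at e2
        have f1 := s0 _ _ e1
        have f2 := s0 _ _ e2
        exact hne (by rw [← f1, f2])
    · have e1 := h2 (i + 1)
      rw [show i + 1 + 2 = i + 3 by ring, hy, hz] at e1
      have e2 := h3 i
      rw [hx, hz] at e2
      have f1 := s0 _ _ e1
      have f2 := s0 _ _ e2
      exact hne (by rw [f1, f2])
  -- a literal next to a triple (to the left) does not satisfy its clause
  have s4 : ∀ i p a j k b, v i = Sum.inl (p, a) → v (i + 1) = Sum.inr (j, k, b) →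
      L k p a = false := by
    intro i p a j k b hx hy
    by_contra hL
    have hL' : L k p a = true := by simpa using hL
    rcases hz : v (i + 2) with z | ⟨z1, z2, z3⟩
    · rcases hw : v (i + 3) with w | ⟨w1, w2, w3⟩
      · exact s2 (i + 2) _ _ hz (by rw [show i + 2 + 1 = i + 3 by ring]; exact hw)
      · have e1 := h2 (i + 1)
        rw [show i + 1 + 2 = i + 3 by ring, hy, hw] at e1
        have f1 := s0 _ _ e1
        simp only at f1
        subst f1
        have e2 := h3 i
        rw [hx, hw, adjP_lr] at e2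
        exact e2 (Or.inr hL')
    · have f1 := s3 (i + 1) _ _ hy (by rw [show i + 1 + 1 = i + 2 by ring]; exact hz)
      simp only at f1
      subst f1
      have e2 := h2 i
      rw [hx, hz, adjP_lr] at e2
      exact e2 (Or.inr hL')
  have s5 : ∀ i p a j k b, v i = Sum.inr (j, k, b) → v (i + 1) = Sum.inl (p, a) →
      L k p a = false := by
    intro i p a j k b hy hx
    by_contra hL
    have hL' : L k p a = true := by simpa using hL
    rcases hz : v (i - 1) with z | ⟨z1, z2, z3⟩
    · rcases hw : v (i - 2) with w | ⟨w1, w2, w3⟩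
      · exact s2 (i - 2) _ _ hw (by rw [show i - 2 + 1 = i - 1 by ring]; exact hz)
      · have e1 := h2 (i - 2)
        rw [show i - 2 + 2 = i by ring, hy, hw] at e1
        have f1 := s0 _ _ e1
        simp only at f1
        subst f1
        have e2 := h3 (i - 2)
        rw [show i - 2 + 3 = i + 1 by ring, hx, hw] at e2
        exact e2 (((adjP_lr _ _ _ _ _).2 (Or.inr hL')).symm)
    · have f1 := s3 (i - 1) _ _ hz (by rw [show i - 1 + 1 = i by ring]; exact hy)
      simp only at f1
      subst f1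
      have e2 := h2 (i - 1)
      rw [show i - 1 + 2 = i + 1 by ring, hx, hz] at e2
      exact e2 (((adjP_lr _ _ _ _ _).2 (Or.inr hL')).symm)
  -- the right neighbour of a triple
  have s6 : ∀ i j k b, v i = Sum.inr (j, k, b) →
      v (i + 1) = Sum.inr (j, k, !b) ∨ v (i + 1) = Sum.inl (j, !b) := by
    intro i j k b hx
    have e1 := hA i
    rcases hz : v (i + 1) with ⟨z1, z2⟩ | ⟨z1, z2, z3⟩
    · right
      rw [hx, hz] at e1
      have e2 := (adjP_lr _ _ _ _ _).1 e1.symm
      rw [s5 i _ _ _ _ _ hx hz] at e2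
      simp only [Bool.false_eq_true, or_false] at e2
      obtain ⟨rfl, e2⟩ := e2
      congr 2
      revert e2
      cases z2 <;> cases b <;> simp
    · left
      have f1 := s3 i _ _ hx hz
      simp only at f1
      subst f1
      rw [hx, hz, adjP_rr] at e1
      simp only [ne_eq, not_true_eq_false, false_or] at e1
      obtain ⟨rfl, e1⟩ := e1
      congr 3
      revert e1
      cases z3 <;> cases b <;> simp
  -- the left neighbour of a triple
  have s7 : ∀ i j k b, v (i + 1) = Sum.inr (j, k, b) →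
      v i = Sum.inr (j, k, !b) ∨ v i = Sum.inl (j, !b) := by
    intro i j k b hx
    have e1 := hA i
    rcases hz : v i with ⟨z1, z2⟩ | ⟨z1, z2, z3⟩
    · right
      rw [hx, hz] at e1
      have e2 := (adjP_lr _ _ _ _ _).1 e1
      rw [s4 i _ _ _ _ _ hz hx] at e2
      simp only [Bool.false_eq_true, or_false] at e2
      obtain ⟨rfl, e2⟩ := e2
      congr 2
      revert e2
      cases z2 <;> cases b <;> simp
    · left
      have f1 := s3 i _ _ hz hx
      simp only at f1
      subst f1
      rw [hx, hz, adjP_rr] at e1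
      simp only [ne_eq, not_true_eq_false, false_or] at e1
      obtain ⟨rfl, e1⟩ := e1
      congr 3
      revert e1
      cases z3 <;> cases b <;> simp
  -- a triple
  obtain ⟨i, j, k, b, hx⟩ : ∃ i j k b, v i = Sum.inr (j, k, b) := by
    rcases hx : v 0 with x | ⟨j, k, b⟩
    · rcases hy : v 1 with y | ⟨j, k, b⟩
      · exact (s2 0 x y hx (by simpa using hy)).elim
      · exact ⟨1, j, k, b, hy⟩
    · exact ⟨0, j, k, b, hx⟩
  have hx' : v (i - 1 + 1) = Sum.inr (j, k, b) := by rw [show i - 1 + 1 = i by ring]; exact hx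
  rcases s6 i j k b hx with h | h
  · -- the right neighbour is a triple
    rcases s7 (i - 1) j k b hx' with h' | h'
    · exact d2 (i - 1) (by rw [show i - 1 + 2 = i + 1 by ring, h, h'])
    · rcases s6 (i + 1) j k (!b) h with h'' | h''
      · exact d2 i (by rw [hx, show i + 2 = i + 1 + 1 by ring, h'']; simp)
      · apply h3 (i - 1)
        rw [show i - 1 + 3 = i + 1 + 1 by ring, h', h'', adjP_ll]
        exact ⟨rfl, by simp⟩
  · rcases s7 (i - 1) j k b hx' with h' | h'
    · have h'2 : v (i - 2 + 1) = Sum.inr (j, k, !b) := by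
        rw [show i - 2 + 1 = i - 1 by ring]; exact h'
      rcases s7 (i - 2) j k (!b) h'2 with h'' | h''
      · exact d2 (i - 2) (by rw [show i - 2 + 2 = i by ring, hx, h'']; simp)
      · apply h3 (i - 2)
        rw [show i - 2 + 3 = i + 1 by ring, h, h'', adjP_ll]
        exact ⟨rfl, by simp⟩
    · exact d2 (i - 1) (by rw [show i - 1 + 2 = i + 1 by ring, h, h'])

/-- No induced cycle of length at least five in the complement. -/
theorem no_antihole {v : ℤ → Lb} (hv : ∀ i, ValidE n m L (v i))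
    (hA : ∀ i, ¬ AdjP L (v i) (v (i + 1)))
    (h2 : ∀ i, AdjP L (v i) (v (i + 2))) (h3 : ∀ i, AdjP L (v i) (v (i + 3)))
    (d1 : ∀ i, v i ≠ v (i + 1)) (d4 : ∀ i, v i ≠ v (i + 4)) : False := by
  have s0 : ∀ x y : ℕ × ℕ × Bool, ¬ AdjP L (Sum.inr x) (Sum.inr y) → x.2.1 = y.2.1 := by
    rintro ⟨x1, x2, x3⟩ ⟨y1, y2, y3⟩ h
    rw [adjP_rr] at h
    push Not at h
    exact h.1
  -- a literal followed by a triple is followed by a literal
  have t : ∀ i p a x, v i = Sum.inl (p, a) → v (i + 1) = Sum.inr x →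
      v (i + 2) = Sum.inl (p, !a) := by
    rintro i p a ⟨j, k, b⟩ hx hy
    rcases hz : v (i + 2) with ⟨z1, z2⟩ | ⟨z1, z2, z3⟩
    · have e1 := h2 i
      rw [hx, hz, adjP_ll] at e1
      obtain ⟨rfl, e1⟩ := e1
      congr 2
      revert e1
      cases z2 <;> cases a <;> simp
    · exfalso
      have e0 := hA (i + 1)
      rw [show i + 1 + 1 = i + 2 by ring, hy, hz] at e0
      have f0 := s0 _ _ e0
      simp only at f0
      subst f0
      have e1 := hA i
      rw [hx, hy, adjP_lr] at e1
      push Not at e1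
      have e2 := h2 i
      rw [hx, hz, adjP_lr] at e2
      rcases e2 with ⟨rfl, e2⟩ | e2
      swap
      · exact e1.2 e2
      have hz3 : z3 = !a := by revert e2; cases z3 <;> cases a <;> simp
      subst hz3
      have val := hv (i + 2)
      rw [hz] at val
      have val' : L k p (!a) = false := val.2.2
      rcases hw : v (i + 3) with ⟨w1, w2⟩ | ⟨w1, w2, w3⟩
      · have e3 := h3 i
        rw [hx, hw, adjP_ll] at e3
        obtain ⟨rfl, e3⟩ := e3
        have hw2 : w2 = !a := by revert e3; cases w2 <;> cases a <;> simp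
        subst hw2
        have e4 := h2 (i + 1)
        rw [show i + 1 + 2 = i + 3 by ring, hy, hw] at e4
        have e5 := (adjP_lr _ _ _ _ _).1 e4.symm
        rw [val'] at e5
        simp only [Bool.false_eq_true, or_false] at e5
        obtain ⟨rfl, e5⟩ := e5
        apply e0
        rw [adjP_rr]
        right
        refine ⟨rfl, ?_⟩
        exact fun h => e5 h.symm
      · have e3 := h3 i
        rw [hx, hw, adjP_lr] at e3
        have e4 := hA (i + 2)
        rw [show i + 2 + 1 = i + 3 by ring, hz, hw] at e4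
        have f4 := s0 _ _ e4
        simp only at f4
        subst f4
        rcases e3 with ⟨rfl, e3⟩ | e3
        · apply d1 (i + 2)
          rw [show i + 2 + 1 = i + 3 by ring, hz, hw]
          congr 3
          revert e3
          cases w3 <;> cases a <;> simp
        · exact e1.2 e3
  -- the same for a literal followed by a triple: contradiction
  have t2 : ∀ i x y, v i = Sum.inl x → v (i + 1) = Sum.inr y → False := by
    rintro i ⟨p, a⟩ y hx hy
    have e1 := t i p a y hx hy
    rcases hw : v (i + 3) with ⟨w1, w2⟩ | w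
    · have e3 := h3 i
      rw [hx, hw, adjP_ll] at e3
      obtain ⟨rfl, e3⟩ := e3
      apply d1 (i + 2)
      rw [show i + 2 + 1 = i + 3 by ring, e1, hw]
      congr 2
      revert e3
      cases w2 <;> cases a <;> simp
    · have e4 := t (i + 2) p (!a) w e1 (by rw [show i + 2 + 1 = i + 3 by ring]; exact hw)
      apply d4 i
      rw [show i + 4 = i + 2 + 2 by ring, e4, hx]
      simp
  -- hence all are of the same kind to the right of a literal
  by_cases hlit : ∃ i x, v i = Sum.inl x
  · obtain ⟨i, x, hx⟩ := hlit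
    have step : ∀ j y, v j = Sum.inl y → ∃ z, v (j + 1) = Sum.inl z := by
      intro j y hy
      rcases hz : v (j + 1) with z | z
      · exact ⟨z, rfl⟩
      · exact (t2 j _ _ hy hz).elim
    obtain ⟨⟨y1, y2⟩, hy⟩ := step i x hx
    obtain ⟨⟨z1, z2⟩, hz⟩ := step _ _ hy
    obtain ⟨⟨w1, w2⟩, hw⟩ := step _ _ hz
    obtain ⟨x1, x2⟩ := x
    rw [show i + 1 + 1 = i + 2 by ring] at hz
    rw [show i + 1 + 1 + 1 = i + 3 by ring] at hw
    have e2 := h2 i
    have e3 := h3 i
    rw [hx, hz, adjP_ll] at e2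
    rw [hx, hw, adjP_ll] at e3
    apply d1 (i + 2)
    rw [show i + 2 + 1 = i + 3 by ring, hz, hw]
    obtain ⟨rfl, e2⟩ := e2
    obtain ⟨rfl, e3⟩ := e3
    congr 2
    revert e2 e3
    cases x2 <;> cases z2 <;> cases w2 <;> simp
  · push Not at hlit
    have tr : ∀ i, ∃ x, v i = Sum.inr x := by
      intro i
      rcases hz : v i with z | z
      · exact absurd hz (hlit i z)
      · exact ⟨z, rfl⟩
    obtain ⟨⟨x1, x2, x3⟩, hx⟩ := tr 0
    obtain ⟨⟨y1, y2, y3⟩, hy⟩ := tr 1
    obtain ⟨⟨z1, z2, z3⟩, hz⟩ := tr 2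
    obtain ⟨⟨w1, w2, w3⟩, hw⟩ := tr 3
    have a1 := hA 0
    have a2 := hA 1
    have a3 := hA 2
    have e2 := h2 0
    have e3 := h3 0
    have dd := d1 2
    norm_num at a1 a2 a3 e2 e3 dd
    rw [hx, hy] at a1
    rw [hy, hz] at a2
    rw [hz, hw] at a3
    have f1 := s0 _ _ a1
    have f2 := s0 _ _ a2
    have f3 := s0 _ _ a3
    simp only at f1 f2 f3
    subst f1 f2 f3
    rw [hx, hz, adjP_rr] at e2
    rw [hx, hw, adjP_rr] at e3
    simp only [ne_eq, not_true_eq_false, false_or] at e2 e3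
    apply dd
    rw [hz, hw]
    obtain ⟨rfl, e2⟩ := e2
    obtain ⟨rfl, e3⟩ := e3
    congr 3
    revert e2 e3
    cases x3 <;> cases z3 <;> cases w3 <;> simp

/-- The graph on the labels is weakly chordal. -/
theorem weaklyChordal_lab (hvs : ∀ x, x ∈ vs ↔ ValidE n m L x) {V : Type} {G : SimpleGraph V}
    (e : G ≃g labGraph vs (adjE L)) : WeaklyChordal G := by
  have hadj : ∀ u w : V, G.Adj u w ↔ AdjP L (e u).1 (e w).1 := by
    intro u w
    rw [← adj_iff, e.map_adj_iff]
  have hne : ∀ u w : V, u ≠ w → (e u).1 ≠ (e w).1 := by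
    intro u w h h'
    exact h (e.injective (Subtype.ext h'))
  intro k hk
  refine ⟨⟨fun f => ?_⟩, ⟨fun f => ?_⟩⟩
  · obtain ⟨v, h1, h2, h3, d2, d3, d4⟩ := exists_enum hk f
    exact no_hole (L := L) (v := fun i => (e (v i)).1) (fun i => (hadj _ _).1 (h1 i))
      (fun i h => h2 i ((hadj _ _).2 h)) (fun i h => h3 i ((hadj _ _).2 h))
      (fun i => hne _ _ (d2 i))
  · obtain ⟨v, h1, h2, h3, d2, d3, d4⟩ := exists_enum hk f
    simp only [SimpleGraph.compl_adj, not_and, not_not] at h1 h2 h3
    exact no_antihole (n := n) (m := m) (L := L) (v := fun i => (e (v i)).1)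
      (fun i => (hvs _).1 (e (v i)).2)
      (fun i h => (h1 i).2 ((hadj _ _).2 h)) (fun i => (hadj _ _).1 (h2 i (d2 i)))
      (fun i => (hadj _ _).1 (h3 i (d3 i))) (fun i => hne _ _ (h1 i).1)
      (fun i => hne _ _ (d4 i))

end

/-- The graph of the reduction is weakly chordal. -/
theorem weaklyChordal_eqRed (φ : List C3) : WeaklyChordal (matGraph (eqRed φ)) :=
  weaklyChordal_lab (mem_labE φ) (matIso (labE φ) (adjE (satL φ)) (labE_nodup φ))

end Pool.Agent.Helper408_CIS
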